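import Mathlib

/-!
# Graphs of large girth with half the degrees two and half three

A finite connected graph of girth above `R` in which half of the vertices have degree two and half
have degree three, from three involutions on the reduced words of length at most `R`.
-/

set_option autoImplicit false

namespace Pool.Agent.H46.Ins

open SimpleGraph

/-- Reduced words of length at most `R`. -/
def Wd (R : ℕ) : Type := {l : List (Fin 3) // l.IsChain (· ≠ ·) ∧ l.length ≤ R}

instance (R : ℕ) : Finite (Wd R) :=
  ((List.finite_length_le (Fin 3) R).subset (fun _ hl => hl.2) :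
    {l : List (Fin 3) | l.IsChain (· ≠ ·) ∧ l.length ≤ R}.Finite).to_subtype

/-- Multiplication by a letter. -/
def stp (R : ℕ) (c : Fin 3) (l : List (Fin 3)) : List (Fin 3) :=
  if l.head? = some c then l.tail else if l.length < R then c :: l else l

theorem stp_mem {R : ℕ} (c : Fin 3) {l : List (Fin 3)} (h : l.IsChain (· ≠ ·) ∧ l.length ≤ R) :
    (stp R c l).IsChain (· ≠ ·) ∧ (stp R c l).length ≤ R := by
  obtain ⟨h1, h2⟩ := h
  unfold stp
  split_ifs with h3 h4
  · exact ⟨h1.tail, by rw [List.length_tail]; omega⟩
  · refine ⟨?_, by rw [List.length_cons]; omega⟩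
    cases l with
    | nil => simp
    | cons a l =>
      simp only [List.head?_cons, Option.some.injEq] at h3
      exact List.isChain_cons_cons.2 ⟨fun h => h3 h.symm, h1⟩
  · exact ⟨h1, h2⟩

theorem stp_stp {R : ℕ} (c : Fin 3) {l : List (Fin 3)} (h : l.IsChain (· ≠ ·) ∧ l.length ≤ R) :
    stp R c (stp R c l) = l := by
  obtain ⟨h1, h2⟩ := h
  cases l with
  | nil =>
    unfold stp
    rcases Nat.eq_zero_or_pos R with h0 | h0
    · subst h0; simp
    · simp [h0]
  | cons a l =>
    rcases eq_or_ne a c with h3 | h3
    · subst h3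
      have h4 : stp R a (a :: l) = l := by simp [stp]
      rw [h4]
      have h5 : l.length < R := by simpa [Nat.succ_le_iff] using h2
      have h6 : l.head? ≠ some a := by
        cases l with
        | nil => simp
        | cons b l =>
          simp only [List.head?_cons, ne_eq, Option.some.injEq]
          exact fun h => (List.isChain_cons_cons.1 h1).1 h.symm
      unfold stp
      rw [if_neg h6, if_pos h5]
    · rcases Nat.lt_or_ge (a :: l).length R with h4 | h4
      · have h5 : stp R c (a :: l) = c :: a :: l := by
          unfold stp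
          rw [if_neg (by simpa using h3), if_pos h4]
        rw [h5]
        simp [stp]
      · have h5 : stp R c (a :: l) = a :: l := by
          unfold stp
          rw [if_neg (by simpa using h3), if_neg (by omega)]
        rw [h5, h5]

/-- The involution of a letter. -/
def sg (R : ℕ) (c : Fin 3) : Equiv.Perm (Wd R) :=
  Function.Involutive.toPerm (fun w => ⟨stp R c w.1, stp_mem c w.2⟩)
    (fun w => Subtype.ext (stp_stp c w.2))

theorem sg_mul_self (R : ℕ) (c : Fin 3) : sg R c * sg R c = 1 := by
  ext w : 1
  exact Subtype.ext (stp_stp c w.2)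

/-- The empty word. -/
def em (R : ℕ) : Wd R := ⟨[], by simp⟩

theorem prod_em {R : ℕ} (l : List (Fin 3)) (h : l.IsChain (· ≠ ·)) (hl : l.length ≤ R) :
    (((l.map (sg R)).prod (em R)).1 : List (Fin 3)) = l := by
  induction l with
  | nil => rfl
  | cons c l ih =>
    have h1 := ih h.tail (by rw [List.length_cons] at hl; omega)
    rw [List.map_cons, List.prod_cons, Equiv.Perm.mul_apply]
    change stp R c _ = _
    rw [h1]
    have h5 : l.length < R := by rw [List.length_cons] at hl; omega
    have h6 : l.head? ≠ some c := by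
      cases l with
      | nil => simp
      | cons b l =>
        simp only [List.head?_cons, ne_eq, Option.some.injEq]
        exact fun h' => (List.isChain_cons_cons.1 h).1 h'.symm
    unfold stp
    rw [if_neg h6, if_pos h5]

theorem prod_ne {R : ℕ} (l : List (Fin 3)) (h : l.IsChain (· ≠ ·)) (hl : l.length ≤ R)
    (h0 : l ≠ []) : (l.map (sg R)).prod ≠ 1 := by
  intro h1
  have h2 := prod_em l h hl
  rw [h1] at h2
  exact h0 h2.symm

section Walk

variable {V : Type*} {G : SimpleGraph V} {Γ : Type*} [Group Γ] (σ : Fin 3 → Γ) (Φ : V → Γ)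
  (col : V → V → Fin 3)

/-- The colours of a walk. -/
def cols {u v : V} (p : G.Walk u v) : List (Fin 3) := p.darts.map fun d => col d.fst d.snd

include col in
theorem walk_prod (h1 : ∀ u v, G.Adj u v → Φ v = σ (col u v) * Φ u) {u v : V} (p : G.Walk u v) :
    Φ v = (((cols col p).reverse).map σ).prod * Φ u := by
  induction p with
  | nil => simp [cols]
  | @cons a b c h q ih =>
    rw [ih, h1 a b h]
    simp [cols, mul_assoc]

theorem walk_chain (h2 : ∀ u v w, G.Adj v u → G.Adj v w → u ≠ w → col v u ≠ col v w)
    (hs : ∀ u v, col u v = col v u) {u v : V} (p : G.Walk u v) (hp : p.edges.Nodup) :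
    (cols col p).IsChain (· ≠ ·) := by
  induction p with
  | nil => simp [cols]
  | @cons a b c h q ih =>
    have h3 : q.edges.Nodup := by
      rw [Walk.edges_cons] at hp
      exact hp.of_cons
    have h4 := ih h3
    cases q with
    | nil => simp [cols]
    | @cons _ d _ h' q =>
      have h5 : a ≠ d := by
        rintro rfl
        rw [Walk.edges_cons, Walk.edges_cons] at hp
        have := (List.nodup_cons.1 hp).1
        exact this (by simp [Sym2.eq_swap])
      have h6 := h2 a b d h.symm h' h5
      simp only [cols, Walk.darts_cons, List.map_cons] at h4 ⊢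
      refine List.isChain_cons_cons.2 ⟨?_, h4⟩
      rw [hs a b]
      exact h6

end Walk

/-- A graph with a proper colouring of the edges by the three involutions has girth above `R`. -/
theorem girth_of_col {V : Type*} {G : SimpleGraph V} {R : ℕ} (Φ : V → Equiv.Perm (Wd R))
    (col : V → V → Fin 3) (h1 : ∀ u v, G.Adj u v → Φ v = sg R (col u v) * Φ u)
    (h2 : ∀ u v w, G.Adj v u → G.Adj v w → u ≠ w → col v u ≠ col v w)
    (hs : ∀ u v, col u v = col v u) (v : V) (c : G.Walk v v) (hc : c.IsCycle) :
    R < c.length := by
  by_contra hR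
  push Not at hR
  have h3 := walk_prod (sg R) Φ col h1 c
  have h4 := walk_chain col h2 hs c hc.edges_nodup
  have h5 : (((cols col c).reverse).map (sg R)).prod = 1 := by
    have := h3.symm
    rwa [mul_eq_right] at this
  refine prod_ne (cols col c).reverse ?_ ?_ ?_ h5
  · rw [List.isChain_reverse]
    refine h4.imp ?_
    intro a b h
    exact h.symm
  · simpa [cols] using hR
  · intro h0
    have h6 : (cols col c).length = 0 := by
      rw [← List.length_reverse, h0]
      rfl
    have h7 := hc.three_le_length
    simp only [cols, List.length_map, Walk.length_darts] at h6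
    omega

section Cons

variable {Γ : Type*} [Group Γ]

/-- The adjacency. -/
def adj (s t : Γ) : Γ × Bool → Γ × Bool → Prop
  | (h, false), (k, false) => k = s * h
  | (h, false), (k, true) => k = h ∨ t * k = h
  | (h, true), (k, false) => h = k ∨ t * h = k
  | (_, true), (_, true) => False

/-- The graph. -/
def gr (s t : Γ) (hs : s * s = 1) (hs1 : s ≠ 1) : SimpleGraph (Γ × Bool) where
  Adj := adj s t
  symm := ⟨by
    rintro ⟨h, a⟩ ⟨k, b⟩ hh
    cases a <;> cases b <;> simp only [adj] at hh ⊢
    · rw [hh, ← mul_assoc, hs, one_mul]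
    · exact hh
    · exact hh⟩
  loopless := ⟨by
    rintro ⟨h, a⟩ hh
    cases a <;> simp only [adj] at hh
    exact hs1 (by simpa using hh.symm)⟩

theorem nb_false (s t : Γ) (hs : s * s = 1) (hs1 : s ≠ 1) (ht : t ≠ 1) (h : Γ) :
    ((gr s t hs hs1).neighborSet (h, false)).ncard = 3 := by
  classical
  have e : (gr s t hs hs1).neighborSet (h, false) =
      (({(s * h, false), (h, true), (t⁻¹ * h, true)} : Finset (Γ × Bool)) : Set (Γ × Bool)) := by
    ext ⟨k, b⟩
    cases b <;> simp [gr, adj, SimpleGraph.mem_neighborSet, eq_inv_mul_iff_mul_eq]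
  have h1 : h ≠ t⁻¹ * h := by
    intro h2
    exact ht (by simpa using h2)
  rw [e, Set.ncard_coe_finset, Finset.card_insert_of_notMem (by simp),
    Finset.card_insert_of_notMem (by simpa using ht), Finset.card_singleton]

theorem nb_true (s t : Γ) (hs : s * s = 1) (hs1 : s ≠ 1) (ht : t ≠ 1) (h : Γ) :
    ((gr s t hs hs1).neighborSet (h, true)).ncard = 2 := by
  classical
  have e : (gr s t hs hs1).neighborSet (h, true) =
      (({(h, false), (t * h, false)} : Finset (Γ × Bool)) : Set (Γ × Bool)) := by
    ext ⟨k, b⟩
    cases b <;> simp [gr, adj, SimpleGraph.mem_neighborSet, eq_comm]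
  rw [e, Set.ncard_coe_finset, Finset.card_insert_of_notMem (by simpa using ht),
    Finset.card_singleton]

theorem conn (s t : Γ) (hs : s * s = 1) (hs1 : s ≠ 1)
    (hcl : Subgroup.closure ({s, t} : Set Γ) = ⊤) : (gr s t hs hs1).Connected := by
  have h1 : ∀ h : Γ, (gr s t hs hs1).Reachable (1, false) (h, false) := by
    intro h
    have hh : h ∈ Subgroup.closure ({s, t} : Set Γ) := by rw [hcl]; trivial
    have hst : ∀ y : Γ, (gr s t hs hs1).Reachable (y, false) (s * y, false) := fun y =>
      SimpleGraph.Adj.reachable (by simp [gr, adj])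
    have htt : ∀ y : Γ, (gr s t hs hs1).Reachable (y, false) (t * y, false) := fun y =>
      (SimpleGraph.Adj.reachable (by simp [gr, adj] : (gr s t hs hs1).Adj (y, false) (y, true))).trans
        (SimpleGraph.Adj.reachable (by simp [gr, adj]))
    induction hh using Subgroup.closure_induction_left with
    | one => exact SimpleGraph.Reachable.refl _
    | mul_left x hx y hy ih =>
      rcases hx with rfl | rfl
      · exact ih.trans (hst y)
      · exact ih.trans (htt y)
    | inv_mul_cancel x hx y hy ih =>
      rcases hx with rfl | rfl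
      · have := hst (x⁻¹ * y)
        rw [mul_inv_cancel_left] at this
        exact ih.trans this.symm
      · have := htt (x⁻¹ * y)
        rw [mul_inv_cancel_left] at this
        exact ih.trans this.symm
  have h2 : ∀ v : Γ × Bool, (gr s t hs hs1).Reachable (1, false) v := by
    rintro ⟨h, b⟩
    cases b
    · exact h1 h
    · exact (h1 h).trans (SimpleGraph.Adj.reachable (by simp [gr, adj]))
  exact { preconnected := fun u v => (h2 u).symm.trans (h2 v), nonempty := ⟨(1, false)⟩ }

end Cons

/-- Existence. -/
theorem exists_graph (R : ℕ) : ∃ (V : Type) (G : SimpleGraph V), Finite V ∧ G.Connected ∧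
    (∀ v, (G.neighborSet v).ncard = 2 ∨ (G.neighborSet v).ncard = 3) ∧
    {v | (G.neighborSet v).ncard = 2}.ncard = {v | (G.neighborSet v).ncard = 3}.ncard ∧
    ∀ (v : V) (c : G.Walk v v), c.IsCycle → R < c.length := by
  classical
  wlog hR : 2 ≤ R with H
  · obtain ⟨V, G, h1, h2, h3, h4, h5⟩ := H 2 le_rfl
    exact ⟨V, G, h1, h2, h3, h4, fun v c hc => by have := h5 v c hc; omega⟩
  set S : Equiv.Perm (Wd R) := sg R 2 with hS
  set T : Equiv.Perm (Wd R) := sg R 0 * sg R 1 with hT
  let H : Subgroup (Equiv.Perm (Wd R)) := Subgroup.closure {S, T}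
  have hSm : S ∈ H := Subgroup.subset_closure (by simp)
  have hTm : T ∈ H := Subgroup.subset_closure (by simp)
  have hS1 : S ≠ 1 := by
    have := prod_ne (R := R) [2] (by simp) (by simp; omega) (by simp)
    simpa using this
  have hT1 : T ≠ 1 := by
    have := prod_ne (R := R) [0, 1] (by simp) (by simpa using hR) (by simp)
    simpa using this
  let s : H := ⟨S, hSm⟩
  let t : H := ⟨T, hTm⟩
  have hs : s * s = 1 := Subtype.ext (sg_mul_self R 2)
  have hs1 : s ≠ 1 := fun h => hS1 (congrArg Subtype.val h)
  have ht1 : t ≠ 1 := fun h => hT1 (congrArg Subtype.val h)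
  have hcl : Subgroup.closure ({s, t} : Set H) = ⊤ := by
    have h1 := Subgroup.closure_closure_coe_preimage (k := ({S, T} : Set (Equiv.Perm (Wd R))))
    convert h1 using 2
    ext x
    simp [s, t, Subtype.ext_iff]
  refine ⟨H × Bool, gr s t hs hs1, inferInstance, conn s t hs hs1 hcl, ?_, ?_, ?_⟩
  · rintro ⟨h, b⟩
    cases b
    · exact Or.inr (nb_false s t hs hs1 ht1 h)
    · exact Or.inl (nb_true s t hs hs1 ht1 h)
  · have e2 : {v : H × Bool | ((gr s t hs hs1).neighborSet v).ncard = 2} =
        (fun h : H => (h, true)) '' Set.univ := by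
      ext ⟨h, b⟩
      cases b
      · simp [nb_false s t hs hs1 ht1 h]
      · simp [nb_true s t hs hs1 ht1 h]
    have e3 : {v : H × Bool | ((gr s t hs hs1).neighborSet v).ncard = 3} =
        (fun h : H => (h, false)) '' Set.univ := by
      ext ⟨h, b⟩
      cases b
      · simp [nb_false s t hs hs1 ht1 h]
      · simp [nb_true s t hs hs1 ht1 h]
    rw [e2, e3, Set.ncard_image_of_injective _ (fun a b h => congrArg Prod.fst h),
      Set.ncard_image_of_injective _ (fun a b h => congrArg Prod.fst h)]
  · let Φ : H × Bool → Equiv.Perm (Wd R) := fun v =>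
      if v.2 = true then sg R 1 * (v.1 : Equiv.Perm (Wd R)) else v.1
    let col : H × Bool → H × Bool → Fin 3 := fun u v =>
      if u.2 = false ∧ v.2 = false then 2 else if u.1 = v.1 then 1 else 0
    have h01 : ∀ c : Fin 3, ∀ x : Equiv.Perm (Wd R), sg R c * (sg R c * x) = x := fun c x => by
      rw [← mul_assoc, sg_mul_self, one_mul]
    have hΦf : ∀ h : H, Φ (h, false) = (h : Equiv.Perm (Wd R)) := fun h => rfl
    have hΦt : ∀ h : H, Φ (h, true) = sg R 1 * (h : Equiv.Perm (Wd R)) := fun h => rfl
    have c2 : ∀ h k : H, col (h, false) (k, false) = 2 := fun h k => rfl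
    have c1 : ∀ h : H, col (h, false) (h, true) = 1 := fun h => by simp [col]
    have c1' : ∀ h : H, col (h, true) (h, false) = 1 := fun h => by simp [col]
    have c0 : ∀ h k : H, h ≠ k → col (h, false) (k, true) = 0 := fun h k hh => by
      simp [col, hh]
    have c0' : ∀ h k : H, h ≠ k → col (h, true) (k, false) = 0 := fun h k hh => by
      simp [col, hh]
    have hst : ∀ k : H, ((s * k : H) : Equiv.Perm (Wd R)) = sg R 2 * (k : Equiv.Perm (Wd R)) :=
      fun k => rfl
    have htt : ∀ k : H, ((t * k : H) : Equiv.Perm (Wd R)) =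
        sg R 0 * (sg R 1 * (k : Equiv.Perm (Wd R))) := fun k => rfl
    have hne : ∀ k : H, t * k ≠ k := fun k h => ht1 (by simpa using h)
    refine girth_of_col Φ col ?_ ?_ ?_
    · rintro ⟨h, a⟩ ⟨k, b⟩ hh
      cases a <;> cases b <;> simp only [gr, adj] at hh
      · subst hh
        rw [c2, hΦf, hΦf, hst]
      · rcases hh with hh | hh
        · subst hh
          rw [c1, hΦf, hΦt]
        · subst hh
          rw [c0 _ _ (hne k), hΦf, hΦt, htt, h01]
      · rcases hh with hh | hh
        · subst hh
          rw [c1', hΦf, hΦt, h01]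
        · subst hh
          rw [c0' _ _ (hne h).symm, hΦf, hΦt, htt]
    · rintro ⟨k, b⟩ ⟨h, a⟩ ⟨l, c⟩ h1 h2 h3
      cases a <;> cases b <;> cases c <;> simp only [gr, adj] at h1 h2
      · exact absurd (by rw [h1, h2]) h3
      · rw [c2]
        rcases h2 with h2 | h2
        · subst h2
          rw [c1]
          decide
        · subst h2
          rw [c0 _ _ (hne l)]
          decide
      · rw [c2]
        rcases h1 with h1 | h1
        · subst h1
          rw [c1]
          decide
        · subst h1
          rw [c0 _ _ (hne k)]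
          decide
      · rcases h1 with h1 | h1 <;> rcases h2 with h2 | h2
        · exact absurd (by rw [h1, h2]) h3
        · subst h1
          rw [c1, c0 _ _ (fun h => hne l (by rw [h2, h]))]
          decide
        · subst h2
          rw [c1, c0 _ _ (fun h => hne k (by rw [h1, h]))]
          decide
        · exact absurd (by rw [mul_left_cancel (h1.trans h2.symm)]) h3
      · rcases h1 with h1 | h1 <;> rcases h2 with h2 | h2
        · exact absurd (by rw [← h1, ← h2]) h3
        · subst h1
          subst h2
          rw [c1', c0' _ _ (hne h).symm]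
          decide
        · subst h1
          subst h2
          rw [c1', c0' _ _ (hne h).symm]
          decide
        · exact absurd (by rw [← h1, ← h2]) h3
    · rintro ⟨h, a⟩ ⟨k, b⟩
      simp only [col]
      simp only [and_comm, eq_comm]

end Pool.Agent.H46.Ins
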